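import Mathlib
import Pool.Agent.Y209.TU.Main

/-!
# The restriction preorder on 3-tensors is universal for finite preorders and for nothing with
# long chains below an element

Over every field `F` the negative answers to Q1 and Q2, with sharp complements: strict chains below
a tensor of format `n₁ × n₂ × n₃` have at most `n₁ + n₂ + n₃` steps; a total preorder order-embeds
if and only if it order-embeds in `ℕ`; and for every finite preorder `Q` the product
`Q × ℕ × ℕ × ℕ` order-embeds.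
-/

set_option autoImplicit false

universe u v

namespace Pool.Agent.Results.MP_176834_co.FinitelyUniversal

open Pool.Agent.H759R3.Tensor

/-- For every field `F`:
* condition (b) fails, so (a) and (b) do not both hold (Q1), and the restriction preorder is not
  countably universal (Q2);
* (chains) a strict chain `s 0 < s 1 < ... < s m ≤ T` has `m ≤ n₁ + n₂ + n₃`;
* (failure of (b) in numbers) if `c q`, `q ≥ 2`, is increasing, every restriction-monotone real
  function takes only finitely many values, at most one more than the size of `c r`, on the tensors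
  `c q` with `2 ≤ q ≤ r`;
* (total preorders) a total preorder order-embeds if and only if it order-embeds in `ℕ`;
* (universality) for every finite preorder `Q` the product preorder `Q × ℕ × ℕ × ℕ` order-embeds;
  in particular every finite preorder does. -/
theorem result (F : Type u) [Field F] :
    (¬ CondB F ∧ ¬ (CondA F ∧ CondB F)) ∧
    ¬ CountablyUniversal F ∧
    (∀ (T : T3 F) (m : ℕ) (s : Fin (m + 1) → T3 F),
      (∀ i j, i < j → Restricts (s i) (s j) ∧ ¬ Restricts (s j) (s i)) →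
      Restricts (s (Fin.last m)) T → m ≤ T.n₁ + T.n₂ + T.n₃) ∧
    (∀ c : ℚ → T3 F, (∀ q r : ℚ, 2 ≤ q → q ≤ r → Restricts (c q) (c r)) →
      ∀ (r : ℚ) (f : T3 F → ℝ), (∀ S T, Restricts S T → f S ≤ f T) →
        {y : ℝ | ∃ q : ℚ, 2 ≤ q ∧ q ≤ r ∧ f (c q) = y}.Finite ∧
        {y : ℝ | ∃ q : ℚ, 2 ≤ q ∧ q ≤ r ∧ f (c q) = y}.ncard ≤
          (c r).n₁ + (c r).n₂ + (c r).n₃ + 1) ∧
    (∀ (P : Type v) [Preorder P], (∀ x y : P, x ≤ y ∨ y ≤ x) →
      ((∃ φ : P → T3 F, ∀ x y, x ≤ y ↔ Restricts (φ x) (φ y)) ↔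
        ∃ g : P → ℕ, ∀ x y, x ≤ y ↔ g x ≤ g y)) ∧
    (∀ (Q : Type) [Finite Q] [Preorder Q],
      (∃ φ : Q → T3 F, ∀ x y, x ≤ y ↔ Restricts (φ x) (φ y)) ∧
      ∃ φ : Q × ℕ × ℕ × ℕ → T3 F, ∀ x y, x ≤ y ↔ Restricts (φ x) (φ y)) := by
  have hb : ¬ CondB F := by
    rintro ⟨c, b, s, t, hs, hst, hc, hf⟩
    obtain ⟨f, hfs, hfc, -⟩ := hf s le_rfl hst.le
    have h1 := (Pool.Agent.Y209.TU.few_values c hc 3 f hfs.mono).1
    have h2 : (Set.range fun n : ℕ => (((3 : ℚ) - 1 / (n + 1) : ℚ) : ℝ)) ⊆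
        {y : ℝ | ∃ q : ℚ, 2 ≤ q ∧ q ≤ 3 ∧ f (c q) = y} := by
      rintro _ ⟨n, rfl⟩
      have h3 : (1 : ℚ) / ((n : ℚ) + 1) ≤ 1 := by
        rw [div_le_one (by positivity)]
        have : (0 : ℚ) ≤ n := Nat.cast_nonneg n
        linarith
      have h4 : (0 : ℚ) ≤ 1 / ((n : ℚ) + 1) := by positivity
      exact ⟨3 - 1 / ((n : ℚ) + 1), by linarith, by linarith, hfc _ (by linarith)⟩
    refine (Set.infinite_range_of_injective ?_) (h1.subset h2)
    intro a b hab
    have hab' : (((3 : ℚ) - 1 / ((a : ℚ) + 1) : ℚ) : ℝ) = (((3 : ℚ) - 1 / ((b : ℚ) + 1) : ℚ) : ℝ) :=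
      hab
    have h5 : ((3 : ℚ) - 1 / ((a : ℚ) + 1)) = 3 - 1 / ((b : ℚ) + 1) := Rat.cast_injective hab'
    have ha : ((a : ℚ) + 1) ≠ 0 := by positivity
    have hb : ((b : ℚ) + 1) ≠ 0 := by positivity
    have h6 : (1 : ℚ) / ((a : ℚ) + 1) = 1 / ((b : ℚ) + 1) := by linarith
    rw [div_eq_div_iff ha hb] at h6
    have h7 : (a : ℚ) = b := by linarith
    exact_mod_cast h7
  refine ⟨⟨hb, fun h => hb h.2⟩, ?_, fun T m s => Pool.Agent.Y209.TU.chain_le T m s,
    fun c hc r f hf => Pool.Agent.Y209.TU.few_values c hc r f hf,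
    fun P _ ht => Pool.Agent.Y209.TU.total_iff F P ht, fun Q _ _ => ?_⟩
  · intro h
    obtain ⟨φ, hφ⟩ := h ℚ
    obtain ⟨g, hg⟩ := (Pool.Agent.Y209.TU.total_iff F ℚ le_total).1 ⟨φ, hφ⟩
    have hlt : ∀ x y : ℚ, x < y → g x < g y := by
      intro x y hxy
      by_contra hcon
      exact absurd ((hg y x).2 (by omega)) (not_le.2 hxy)
    have h1 : ∀ n : ℕ, (n : ℤ) ≤ (g 0 : ℤ) - g (-(n : ℚ)) := by
      intro n
      induction n with
      | zero => simp
      | succ n ih =>
        have h2 := hlt (-((n + 1 : ℕ) : ℚ)) (-(n : ℚ)) (by push_cast; linarith)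
        push_cast at ih h2 ⊢
        omega
    have h3 := h1 (g 0 + 1)
    push_cast at h3
    omega
  · obtain ⟨φ, hφ⟩ := Pool.Agent.Y209.TU.embed_prod F Q
    refine ⟨⟨fun q => φ (q, 0, 0, 0), fun x y => ?_⟩, φ, hφ⟩
    rw [← hφ]
    simp only [Prod.mk_le_mk, le_refl, and_true]

end Pool.Agent.Results.MP_176834_co.FinitelyUniversal
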